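import Mathlib

/-!
# DOM implies a regular element or a form of rank two (note 3201 of helper51)

`q : V × V → B` is a finite linked alternating bilinear map over the field with two elements.
-/

set_option autoImplicit false
set_option linter.unusedSectionVars false
set_option linter.unusedVariables false

namespace Pool.Agent.HDOM

open scoped BigOperators

/-- functionals -/
abbrev Dl (V : Type) [AddCommGroup V] [Module (ZMod 2) V] := V →ₗ[ZMod 2] ZMod 2

theorem z2 (a : ZMod 2) : a = 0 ∨ a = 1 := by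
  revert a
  decide

theorem z2ne {a : ZMod 2} (h : a ≠ 0) : a = 1 := (z2 a).resolve_left h

section two
variable {M : Type} [AddCommGroup M] [Module (ZMod 2) M]

theorem dd (x : M) : x + x = 0 := ZModModule.add_self x

theorem dl (x y : M) : x + (x + y) = y := by
  rw [← add_assoc, dd, zero_add]

theorem dr (x y : M) : x + y + y = x := by
  rw [add_assoc, dd, add_zero]

theorem dr' (x y : M) : x + y + x = y := by
  rw [add_comm x y, dr]

theorem deq {x y : M} (h : x + y = 0) : x = y := by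
  have h1 := dr x y
  rw [h, zero_add] at h1
  exact h1.symm

theorem exfun {p : Submodule (ZMod 2) M} {x : M} (hx : x ∉ p) :
    ∃ f : M →ₗ[ZMod 2] ZMod 2, f x = 1 ∧ ∀ y ∈ p, f y = 0 := by
  obtain ⟨f, hf, hp⟩ := Submodule.exists_dual_map_eq_bot_of_notMem hx inferInstance
  refine ⟨f, z2ne hf, fun y hy => ?_⟩
  have : f y ∈ p.map f := Submodule.mem_map_of_mem hy
  rw [hp] at this
  simpa using this

end two

/-- signs -/
def sg (a : ZMod 2) : ℤ := if a = 0 then 1 else -1

theorem sg_zero : sg 0 = 1 := by simp [sg]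

theorem sg_one : sg 1 = -1 := by simp [sg]

theorem sg_add (a b : ZMod 2) : sg (a + b) = sg a * sg b := by
  revert a b
  decide

theorem sg_inj {a b : ZMod 2} (h : sg a = sg b) : a = b := by
  revert h
  revert a b
  decide

variable {V B : Type} [AddCommGroup V] [Module (ZMod 2) V] [AddCommGroup B] [Module (ZMod 2) B]

/-- linkage -/
def Lnk (q : V →ₗ[ZMod 2] V →ₗ[ZMod 2] B) : Prop :=
  ∀ x v y w, q x v = q y w → ∃ u, q x u = q x v ∧ q y u = q x v

/-- alternating -/
def Alt (q : V →ₗ[ZMod 2] V →ₗ[ZMod 2] B) : Prop := ∀ x, q x x = 0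

/-- the slots of `e` -/
def S (q : V →ₗ[ZMod 2] V →ₗ[ZMod 2] B) (e : B) : Set V := {y | ∃ v, q y v = e}

/-- `e` is a value of `q` -/
def Sym (q : V →ₗ[ZMod 2] V →ₗ[ZMod 2] B) (e : B) : Prop := ∃ a b, q a b = e

/-- `V_y ≤ V_x` -/
def Le (q : V →ₗ[ZMod 2] V →ₗ[ZMod 2] B) (y x : V) : Prop := ∀ w, q y w = 0 → q x w = 0

/-- the law DOM -/
def DOM (q : V →ₗ[ZMod 2] V →ₗ[ZMod 2] B) : Prop :=
  ∀ x ≠ 0, ∀ e, Sym q e → ∃ y v, q y v = e ∧ Le q y x

/-- `l` vanishes on `V_x` -/
def PP (q : V →ₗ[ZMod 2] V →ₗ[ZMod 2] B) (l : Dl V) (x : V) : Prop := ∀ v, q x v = 0 → l v = 0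

variable {q : V →ₗ[ZMod 2] V →ₗ[ZMod 2] B}

theorem symm (hA : Alt q) (x y : V) : q x y = q y x := by
  have h := hA (x + y)
  have e : q (x + y) (x + y) = q x x + q x y + (q y x + q y y) := by
    rw [map_add q, LinearMap.add_apply, map_add, map_add]
  rw [e, hA x, hA y, zero_add, add_zero] at h
  exact deq h

theorem qa (x a b : V) : q x (a + b) = q x a + q x b := map_add _ _ _

theorem qb (x y a : V) : q (x + y) a = q x a + q y a := by
  rw [map_add, LinearMap.add_apply]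

theorem eq_of_zero {x v w : V} (h : q x (v + w) = 0) : q x v = q x w := by
  rw [qa] at h
  exact deq h

theorem zero_of_eq {x v w : V} (h : q x v = q x w) : q x (v + w) = 0 := by
  rw [qa, h, dd]

theorem mem_S {e : B} {y v : V} (h : q y v = e) : y ∈ S q e := ⟨v, h⟩

theorem sym_of_mem {e : B} {y : V} (h : y ∈ S q e) : Sym q e := ⟨y, h⟩

theorem zero_not_mem {e : B} (he : e ≠ 0) : (0 : V) ∉ S q e := by
  rintro ⟨v, hv⟩
  rw [map_zero, LinearMap.zero_apply] at hv
  exact he hv.symm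

theorem Le.refl (x : V) : Le q x x := fun _ h => h

theorem Le.zero (y : V) : Le q y 0 := fun w _ => by rw [map_zero, LinearMap.zero_apply]

theorem Le.add {y a b : V} (h : Le q y a) (h' : Le q y b) : Le q y (a + b) := fun w hw => by
  rw [qb, h w hw, h' w hw, add_zero]

theorem Le.trans {x y z : V} (h : Le q x y) (h' : Le q y z) : Le q x z :=
  fun w hw => h' w (h w hw)

theorem Le.pp {y x : V} (h : Le q y x) {l : Dl V} (hl : PP q l x) : PP q l y :=
  fun v hv => hl v (h v hv)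

theorem dom (hD : DOM q) (x : V) {e : B} (he : Sym q e) : ∃ y v, q y v = e ∧ Le q y x := by
  rcases eq_or_ne x 0 with rfl | hx
  · obtain ⟨a, b, h⟩ := he
    exact ⟨a, b, h, Le.zero a⟩
  · exact hD x hx e he

/-! ### the maps `φ_e` -/

/-- `φ_e (x)` -/
noncomputable def phi (q : V →ₗ[ZMod 2] V →ₗ[ZMod 2] B) (e : B) (x : V) : B :=
  open Classical in
  if h : ∃ v, ∃ y, q y v = e ∧ Le q y x then q x h.choose else 0

theorem phi_eq (hL : Lnk q) {e : B} {x y v : V} (h : q y v = e) (hy : Le q y x) :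
    phi q e x = q x v := by
  have hex : ∃ v, ∃ y, q y v = e ∧ Le q y x := ⟨v, y, h, hy⟩
  unfold phi
  rw [dif_pos hex]
  obtain ⟨y', h1, h2⟩ := hex.choose_spec
  obtain ⟨u, h3, h4⟩ := hL y v y' hex.choose (by rw [h, h1])
  have e1 : q x v = q x u := eq_of_zero (hy _ (by rw [qa, h3, dd]))
  have e2 : q x hex.choose = q x u := eq_of_zero (h2 _ (by rw [qa, h1, h4, h, dd]))
  rw [e1, e2]

theorem phi_of_mem (hL : Lnk q) {e : B} {x : V} (h : x ∈ S q e) : phi q e x = e := by
  obtain ⟨v, hv⟩ := h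
  rw [phi_eq hL hv (Le.refl x), hv]

theorem phi_mem (hL : Lnk q) (hD : DOM q) {e : B} (he : Sym q e) (x : V) :
    ∃ v, phi q e x = q x v := by
  obtain ⟨y, v, h1, h2⟩ := dom hD x he
  exact ⟨v, phi_eq hL h1 h2⟩

theorem mem_of_phi (hL : Lnk q) (hD : DOM q) {e : B} (he : Sym q e) {x : V}
    (h : phi q e x = e) : x ∈ S q e := by
  obtain ⟨v, hv⟩ := phi_mem hL hD he x
  exact ⟨v, by rw [← hv, h]⟩

theorem trans (hL : Lnk q) (hD : DOM q) {e : B} {z : V} (hz : z ∈ S q e) (x : V) :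
    z + x ∈ S q (e + phi q e x) := by
  obtain ⟨y, v, h1, h2⟩ := dom hD x (sym_of_mem hz)
  obtain ⟨w, hw⟩ := hz
  obtain ⟨u, h3, h4⟩ := hL y v z w (by rw [h1, hw])
  refine ⟨u, ?_⟩
  have e1 : q x v = q x u := eq_of_zero (h2 _ (by rw [qa, h3, dd]))
  rw [qb, h4, h1, phi_eq hL h1 h2, e1]

theorem phi_zero (hL : Lnk q) (hD : DOM q) {e : B} (he : Sym q e) : phi q e 0 = 0 := by
  obtain ⟨v, hv⟩ := phi_mem hL hD he 0
  rw [hv, map_zero, LinearMap.zero_apply]

theorem phi_add (hL : Lnk q) (hD : DOM q) {g e : B} (he : Sym q e) (h : S q e ⊆ S q g) (x : V) :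
    phi q (g + e) x = phi q g x + phi q e x := by
  obtain ⟨y, v, h1, h2⟩ := dom hD x he
  obtain ⟨w, hw⟩ := h (mem_S h1)
  have h3 : q y (w + v) = g + e := by rw [qa, hw, h1]
  rw [phi_eq hL h3 h2, phi_eq hL hw h2, phi_eq hL h1 h2, qa]

end Pool.Agent.HDOM
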