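import Pool.Agent.HDOM.Sit

/-!
# Section 4: the count
-/

set_option autoImplicit false
set_option linter.unusedSectionVars false
set_option linter.unusedVariables false

namespace Pool.Agent.HDOM

open scoped BigOperators
open Classical

variable {V B : Type} [AddCommGroup V] [Module (ZMod 2) V] [AddCommGroup B] [Module (ZMod 2) B]
  {q : V →ₗ[ZMod 2] V →ₗ[ZMod 2] B} [Fintype V]

/-- mass of `P_l` -/
noncomputable def ms (q : V →ₗ[ZMod 2] V →ₗ[ZMod 2] B) (l : Dl V) : ℤ :=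
  ∑ y : V, if PP q l y then cnt q y else 0

/-- mass of the complement of `S_g` -/
noncomputable def Cc (q : V →ₗ[ZMod 2] V →ₗ[ZMod 2] B) (g : B) : ℤ :=
  ∑ y : V, if y ∉ S q g then cnt q y else 0

/-- mass of `P_l` outside `S_g` -/
noncomputable def Cl (q : V →ₗ[ZMod 2] V →ₗ[ZMod 2] B) (g : B) (l : Dl V) : ℤ :=
  ∑ y : V, if PP q l y ∧ y ∉ S q g then cnt q y else 0

theorem four0 (hA : Alt q) (l : Dl V) : (∑ x : V, cnt q x * sg (l x)) = ms q l := by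
  have h := four hA (0 : B) l
  have h1 : ∀ x : V, x ∈ S q (0 : B) := fun x => ⟨0, map_zero _⟩
  have h2 : ∀ y : V, T q 0 l y = if PP q l y then cnt q y else 0 := by
    intro y
    by_cases hy : PP q l y
    · rw [if_pos hy, T_pp (map_zero (q y)) hy, map_zero, sg_zero, mul_one]
    · rw [if_neg hy, T_not_pp hy]
  rw [Finset.sum_congr rfl fun x _ => by rw [if_pos (h1 x)],
    Finset.sum_congr rfl fun y _ => h2 y] at h
  exact h

theorem not_pp_zero {l : Dl V} (hl : l ≠ 0) : ¬ PP q l 0 := fun h =>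
  hl (LinearMap.ext fun v => h v (by rw [map_zero, LinearMap.zero_apply]))

theorem Cl_lt {g : B} (hg : g ≠ 0) {l : Dl V} (hl : l ≠ 0) : Cl q g l < Cc q g := by
  unfold Cl Cc
  apply Finset.sum_lt_sum
  · intro x _
    by_cases h : x ∉ S q g
    · rw [if_pos h]
      split_ifs
      · exact le_rfl
      · exact (cnt_pos x).le
    · rw [if_neg h, if_neg fun h' => h h'.2]
  · refine ⟨0, Finset.mem_univ _, ?_⟩
    rw [if_pos (zero_not_mem hg), if_neg fun h => not_pp_zero hl h.1]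
    exact cnt_pos 0

theorem A_eq (g : B) (l : Dl V) : A q g l = ms q l - Cl q g l := by
  unfold A ms Cl
  rw [← Finset.sum_sub_distrib]
  refine Finset.sum_congr rfl fun x _ => ?_
  by_cases h1 : PP q l x <;> by_cases h2 : x ∈ S q g <;> simp [h1, h2]

variable {e : B} {W : Submodule (ZMod 2) V} {w : V}

/-- the sign is `-1` at every functional vanishing on `Y` -/
theorem Sit.sign (h : Sit q e W w) (C : Ctx q) {l : Dl V} (hl : l ≠ 0)
    (hY : ∀ x ∈ W ⊔ K q e, l x = 0) {g : B} (hg : g ∈ Orb q e) :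
    2 * ms q l = Cc q g + Cl q g l ∧ ∀ y v, PP q l y → q y v = g → l v = 1 := by
  have hg0 : g ≠ 0 := C.orb_ne h.max hg
  have h4 := four C.alt g l
  have hlhs : (∑ x : V, (if x ∈ S q g then cnt q x else 0) * sg (l x)) = ms q l - Cc q g := by
    rw [← four0 C.alt l]
    unfold Cc
    rw [← Finset.sum_sub_distrib]
    refine Finset.sum_congr rfl fun x _ => ?_
    by_cases hx : x ∈ S q g
    · rw [if_pos hx, if_neg (not_not.2 hx), sub_zero]
    · rw [if_neg hx, if_pos hx]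
      have h5 : x ∈ W ⊔ K q e := by
        by_contra h6
        exact hx (h.out x h6 g hg)
      rw [hY x h5, sg_zero]
      ring
  rw [hlhs] at h4
  have hlt := Cl_lt (q := q) hg0 hl
  by_cases hex : ∃ y v, PP q l y ∧ q y v = g
  · obtain ⟨y, v, hy, hv⟩ := hex
    rw [sumT C.lnk hy hv, A_eq] at h4
    have hv1 : l v = 1 := by
      rcases z2 (l v) with h5 | h5
      · exfalso
        rw [h5, sg_zero, one_mul] at h4
        omega
      · exact h5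
    refine ⟨?_, fun y' v' hy' hv' => ?_⟩
    · rw [hv1, sg_one] at h4
      linarith
    · rw [← coh C.lnk hy hv hy' hv', hv1]
  · exfalso
    have h5 : (∑ y : V, T q g l y) = 0 := by
      refine Finset.sum_eq_zero fun y _ => ?_
      by_cases hy : PP q l y
      · exact T_not_mem fun ⟨v, hv⟩ => hex ⟨y, v, hy, hv⟩
      · exact T_not_pp hy
    have h6 : A q g l = 0 := by
      unfold A
      refine Finset.sum_eq_zero fun y _ => if_neg ?_
      rintro ⟨hy, v, hv⟩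
      exact hex ⟨y, v, hy, hv⟩
    rw [h5] at h4
    rw [A_eq] at h6
    omega

/-- elements of `Y - K` -/
theorem Sit.val (h : Sit q e W w) {x : V} (hx : x ∈ W ⊔ K q e) (hK : x ∉ K q e) :
    ∃ v ∈ W, ∃ k ∈ K q e, x = v + k ∧ q v w ∈ Orb q e := by
  obtain ⟨v, hv, k, hk, rfl⟩ := Submodule.mem_sup.1 hx
  refine ⟨v, hv, k, hk, rfl, (h.orb _).2 ⟨fun h0 => hK ?_, v, hv, rfl⟩⟩
  exact add_mem (h.ker v hv h0) hk

theorem Sit.loc (h : Sit q e W w) (C : Ctx q) {l : Dl V} (hl : l ≠ 0)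
    (hY : ∀ x ∈ W ⊔ K q e, l x = 0) {g₁ g₂ : B} (h1 : g₁ ∈ Orb q e) (h2 : g₂ ∈ Orb q e)
    (h3 : g₁ ≠ g₂) {x : V} (hx : PP q l x) : x ∈ W ⊔ K q e ∧ x ∉ K q e := by
  constructor
  · by_contra hxY
    obtain ⟨v₁, hv₁⟩ := h.out x hxY g₁ h1
    obtain ⟨v₂, hv₂⟩ := h.out x hxY g₂ h2
    have e1 := (h.sign C hl hY h1).2 x v₁ hx hv₁
    have e2 := (h.sign C hl hY h2).2 x v₂ hx hv₂
    have e3 := (h.sign C hl hY (C.orb_add h.max h1 h2 h3)).2 x (v₁ + v₂) hx (by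
      rw [qa, hv₁, hv₂])
    rw [map_add, e1, e2] at e3
    exact absurd e3 (by decide)
  · intro hxK
    obtain ⟨y, v, k1, k2⟩ := HDOM.dom C.dom x h.max.1
    have e1 := (h.sign C hl hY (C.orb_self h.max)).2 y v (k2.pp hx) k1
    have e2 : q x v = 0 := by rw [← C.phi_eq k1 k2, C.phi_K h.max hxK]
    rw [hx v e2] at e1
    exact zero_ne_one e1

theorem Sit.disj (h : Sit q e W w) (C : Ctx q) {l₁ l₂ : Dl V} (hl₁ : l₁ ≠ 0) (hl₂ : l₂ ≠ 0)
    (hne : l₁ ≠ l₂) (hY₁ : ∀ x ∈ W ⊔ K q e, l₁ x = 0) (hY₂ : ∀ x ∈ W ⊔ K q e, l₂ x = 0)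
    {g₁ g₂ : B} (h1 : g₁ ∈ Orb q e) (h2 : g₂ ∈ Orb q e) (h3 : g₁ ≠ g₂) {x : V}
    (hx₁ : PP q l₁ x) (hx₂ : PP q l₂ x) : False := by
  obtain ⟨hxY, hxK⟩ := h.loc C hl₁ hY₁ h1 h2 h3 hx₁
  obtain ⟨v, hv, k, hk, rfl, hg⟩ := h.val hxY hxK
  obtain ⟨n, hn⟩ := (h.mem v hv k hk _ hg).2 rfl
  have e1 := (h.sign C hl₁ hY₁ hg).2 _ n hx₁ hn
  have e2 := (h.sign C hl₂ hY₂ hg).2 _ n hx₂ hn
  have h12 : l₁ + l₂ ≠ 0 := fun h0 => hne (deq h0)
  have e3 := (h.sign C h12 (fun x hx => by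
    rw [LinearMap.add_apply, hY₁ x hx, hY₂ x hx, add_zero]) hg).2 _ n (fun u hu => by
    rw [LinearMap.add_apply, hx₁ u hu, hx₂ u hu, add_zero]) hn
  rw [LinearMap.add_apply, e1, e2] at e3
  exact absurd e3 (by decide)

theorem Sit.uniq (h : Sit q e W w) (C : Ctx q) {l₁ l₂ : Dl V} (hl₁ : l₁ ≠ 0) (hl₂ : l₂ ≠ 0)
    (hne : l₁ ≠ l₂) (hY₁ : ∀ x ∈ W ⊔ K q e, l₁ x = 0) (hY₂ : ∀ x ∈ W ⊔ K q e, l₂ x = 0)
    {g₁ g₂ : B} (h1 : g₁ ∈ Orb q e) (h2 : g₂ ∈ Orb q e) (h3 : g₁ ≠ g₂) : False := by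
  have hg₃ := C.orb_add h.max h1 h2 h3
  set g₃ := g₁ + g₂ with hg3
  have h12 : l₁ + l₂ ≠ 0 := fun h0 => hne (deq h0)
  have hY₃ : ∀ x ∈ W ⊔ K q e, (l₁ + l₂) x = 0 := fun x hx => by
    rw [LinearMap.add_apply, hY₁ x hx, hY₂ x hx, add_zero]
  have h13 : l₁ ≠ l₁ + l₂ := fun h0 => hl₂ (add_eq_left.1 h0.symm)
  have h23 : l₂ ≠ l₁ + l₂ := fun h0 => hl₁ (add_eq_right.1 h0.symm)
  -- at most one of the three symbols contains `x`
  have two : ∀ x ∈ W ⊔ K q e, x ∉ K q e → (x ∉ S q g₁ ∧ x ∉ S q g₂) ∨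
      (x ∉ S q g₁ ∧ x ∉ S q g₃) ∨ (x ∉ S q g₂ ∧ x ∉ S q g₃) := by
    intro x hx hK
    obtain ⟨v, hv, k, hk, rfl, hg⟩ := h.val hx hK
    rw [h.mem v hv k hk _ h1, h.mem v hv k hk _ h2, h.mem v hv k hk _ hg₃]
    by_cases c1 : q v w = g₁
    · right; right
      rw [c1]
      refine ⟨h3, fun h0 => ?_⟩
      rw [hg3] at h0
      exact C.orb_ne h.max h2 (add_eq_left.1 h0.symm)
    · by_cases c2 : q v w = g₂
      · right; left
        refine ⟨c1, fun h0 => ?_⟩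
        rw [c2, hg3] at h0
        exact C.orb_ne h.max h1 (add_eq_right.1 h0.symm)
      · left
        exact ⟨c1, c2⟩
  have three : ∀ x ∈ K q e, x ∉ S q g₁ ∧ x ∉ S q g₂ ∧ x ∉ S q g₃ := by
    intro x hx
    have key : ∀ g ∈ Orb q e, x ∉ S q g := by
      intro g hg h0
      have h4 := (h.mem 0 (zero_mem _) x hx g hg).1 (by rwa [zero_add])
      rw [map_zero, LinearMap.zero_apply] at h4
      exact C.orb_ne h.max hg h4.symm
    exact ⟨key _ h1, key _ h2, key _ hg₃⟩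
  set F : ℤ := ∑ x : V, if x ∈ W ⊔ K q e ∧ x ∉ K q e then cnt q x else 0 with hF
  set FK : ℤ := ∑ x : V, if x ∈ K q e then cnt q x else 0 with hFK
  have hFKpos : 0 < FK := by
    rw [hFK]
    apply Finset.sum_pos'
    · intro v _
      split_ifs
      · exact (cnt_pos v).le
      · exact le_rfl
    · exact ⟨0, Finset.mem_univ _, by rw [if_pos (zero_mem _)]; exact cnt_pos 0⟩
  have hFnn : 0 ≤ F := by
    rw [hF]
    apply Finset.sum_nonneg
    intro v _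
    split_ifs
    · exact (cnt_pos v).le
    · exact le_rfl
  have hCc : 2 * F + 3 * FK ≤ Cc q g₁ + Cc q g₂ + Cc q g₃ := by
    unfold Cc
    rw [hF, hFK, Finset.mul_sum, Finset.mul_sum, ← Finset.sum_add_distrib,
      ← Finset.sum_add_distrib, ← Finset.sum_add_distrib]
    apply Finset.sum_le_sum
    intro x _
    have hpos := cnt_pos (q := q) x
    by_cases hxK : x ∈ K q e
    · obtain ⟨k1, k2, k3⟩ := three x hxK
      rw [if_pos hxK, if_pos k1, if_pos k2, if_pos k3, if_neg fun h0 => h0.2 hxK]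
      linarith
    · rw [if_neg hxK]
      by_cases hxY : x ∈ W ⊔ K q e
      · rw [if_pos ⟨hxY, hxK⟩]
        rcases two x hxY hxK with ⟨k1, k2⟩ | ⟨k1, k2⟩ | ⟨k1, k2⟩
        · rw [if_pos k1, if_pos k2]
          split_ifs <;> linarith
        · rw [if_pos k1, if_pos k2]
          split_ifs <;> linarith
        · rw [if_pos k1, if_pos k2]
          split_ifs <;> linarith
      · rw [if_neg fun h0 => hxY h0.1]
        split_ifs <;> linarith
  have hCl : ∀ l : Dl V, l ≠ 0 → (∀ x ∈ W ⊔ K q e, l x = 0) →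
      2 * ms q l ≤ Cl q g₁ l + Cl q g₂ l + Cl q g₃ l := by
    intro l hl hY
    unfold Cl ms
    rw [Finset.mul_sum, ← Finset.sum_add_distrib, ← Finset.sum_add_distrib]
    apply Finset.sum_le_sum
    intro x _
    have hpos := cnt_pos (q := q) x
    by_cases hx : PP q l x
    · obtain ⟨hxY, hxK⟩ := h.loc C hl hY h1 h2 h3 hx
      rw [if_pos hx]
      rcases two x hxY hxK with ⟨k1, k2⟩ | ⟨k1, k2⟩ | ⟨k1, k2⟩
      · have e1 : PP q l x ∧ x ∉ S q g₁ := ⟨hx, k1⟩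
        have e2 : PP q l x ∧ x ∉ S q g₂ := ⟨hx, k2⟩
        rw [if_pos e1, if_pos e2]
        split_ifs <;> linarith
      · have e1 : PP q l x ∧ x ∉ S q g₁ := ⟨hx, k1⟩
        have e2 : PP q l x ∧ x ∉ S q g₃ := ⟨hx, k2⟩
        rw [if_pos e1, if_pos e2]
        split_ifs <;> linarith
      · have e1 : PP q l x ∧ x ∉ S q g₂ := ⟨hx, k1⟩
        have e2 : PP q l x ∧ x ∉ S q g₃ := ⟨hx, k2⟩
        rw [if_pos e1, if_pos e2]
        split_ifs <;> linarith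
    · rw [if_neg hx, if_neg fun h0 => hx h0.1, if_neg fun h0 => hx h0.1,
        if_neg fun h0 => hx h0.1]
      norm_num
  have hlow : ∀ l : Dl V, l ≠ 0 → (∀ x ∈ W ⊔ K q e, l x = 0) →
      2 * F + 3 * FK ≤ 4 * ms q l := by
    intro l hl hY
    have e1 := (h.sign C hl hY h1).1
    have e2 := (h.sign C hl hY h2).1
    have e3 := (h.sign C hl hY hg₃).1
    have e4 := hCl l hl hY
    linarith
  have hup : ms q l₁ + ms q l₂ + ms q (l₁ + l₂) ≤ F := by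
    unfold ms
    rw [hF, ← Finset.sum_add_distrib, ← Finset.sum_add_distrib]
    apply Finset.sum_le_sum
    intro x _
    have hpos := cnt_pos (q := q) x
    by_cases c1 : PP q l₁ x
    · have c2 : ¬ PP q l₂ x := fun c2 => h.disj C hl₁ hl₂ hne hY₁ hY₂ h1 h2 h3 c1 c2
      have c3 : ¬ PP q (l₁ + l₂) x := fun c3 => h.disj C hl₁ h12 h13 hY₁ hY₃ h1 h2 h3 c1 c3
      rw [if_pos c1, if_neg c2, if_neg c3, if_pos (h.loc C hl₁ hY₁ h1 h2 h3 c1)]
      linarith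
    · rw [if_neg c1]
      by_cases c2 : PP q l₂ x
      · have c3 : ¬ PP q (l₁ + l₂) x := fun c3 => h.disj C hl₂ h12 h23 hY₂ hY₃ h1 h2 h3 c2 c3
        rw [if_pos c2, if_neg c3, if_pos (h.loc C hl₂ hY₂ h1 h2 h3 c2)]
        linarith
      · rw [if_neg c2]
        by_cases c3 : PP q (l₁ + l₂) x
        · rw [if_pos c3, if_pos (h.loc C h12 hY₃ h1 h2 h3 c3)]
          linarith
        · rw [if_neg c3]
          split_ifs <;> linarith
  have f1 := hlow l₁ hl₁ hY₁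
  have f2 := hlow l₂ hl₂ hY₂
  have f3 := hlow (l₁ + l₂) h12 hY₃
  linarith

theorem Sit.ne_top (h : Sit q e W w) (C : Ctx q) : W ⊔ K q e ≠ ⊤ := by
  intro hT
  have hmemT : ∀ x : V, x ∈ W ⊔ K q e := fun x => by rw [hT]; exact Submodule.mem_top
  obtain ⟨x, v, hxv⟩ := h.max.1
  have he0 := h.max.2.1
  have hO := C.orb_self h.max
  have hval : ∀ y ∈ S q e, ∃ a ∈ W, ∃ k ∈ K q e, y = a + k ∧ q a w = e := by
    intro y hy
    obtain ⟨a, ha, k, hk, rfl⟩ := Submodule.mem_sup.1 (hmemT y)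
    exact ⟨a, ha, k, hk, rfl, (h.mem a ha k hk e hO).1 hy⟩
  obtain ⟨a, ha, k, hk, hx, hae⟩ := hval x (mem_S hxv)
  obtain ⟨a', ha', k', hk', hv, hae'⟩ := hval v (mem_S (by rw [symm C.alt]; exact hxv))
  have h1 : v + x ∈ S q e := ⟨x, by rw [qb, C.alt, add_zero, symm C.alt, hxv]⟩
  have h2 : v + x = (a' + a) + (k' + k) := by rw [hx, hv]; abel
  rw [h2] at h1
  have h3 := (h.mem _ (add_mem ha' ha) _ (add_mem hk' hk) e hO).1 h1
  rw [qb, hae, hae', dd] at h3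
  exact he0 h3.symm

/-- **Section 4** -/
theorem Sit.main (h : Sit q e W w) (C : Ctx q) (hb : ∃ v ∈ W, q v w ≠ 0 ∧ q v w ≠ e) :
    ∃ t : Dl V, t ≠ 0 ∧ (∀ x, x ∈ W ⊔ K q e ↔ t x = 0) ∧
      (∀ x, PP q t x ↔ x ∈ W ⊔ K q e ∧ x ∉ K q e) := by
  obtain ⟨v₀, hv₀, hv1, hv2⟩ := hb
  have h1 := C.orb_self h.max
  have h2 : q v₀ w ∈ Orb q e := (h.orb _).2 ⟨hv1, v₀, hv₀, rfl⟩
  have h3 : e ≠ q v₀ w := fun h0 => hv2 h0.symm
  obtain ⟨x₀, hx₀⟩ : ∃ x, x ∉ W ⊔ K q e := by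
    by_contra hn
    push Not at hn
    exact h.ne_top C (Submodule.eq_top_iff'.2 hn)
  obtain ⟨t, ht1, ht2⟩ := exfun hx₀
  have ht0 : t ≠ 0 := by
    rintro rfl
    exact zero_ne_one ht1
  have hY : ∀ x, x ∈ W ⊔ K q e ↔ t x = 0 := by
    intro x
    refine ⟨fun hx => ht2 x hx, fun hx => ?_⟩
    by_contra hxY
    obtain ⟨l, hl1, hl2⟩ := exfun hxY
    have hl0 : l ≠ 0 := by
      rintro rfl
      exact zero_ne_one hl1
    have hne : t ≠ l := by
      rintro rfl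
      rw [hx] at hl1
      exact zero_ne_one hl1
    exact h.uniq C ht0 hl0 hne ht2 hl2 h1 h2 h3
  refine ⟨t, ht0, hY, fun x => ⟨fun hx => h.loc C ht0 ht2 h1 h2 h3 hx, ?_⟩⟩
  rintro ⟨hxY, hxK⟩ u hu
  by_contra htu
  obtain ⟨v, hv, k, hk, rfl, hg⟩ := h.val hxY hxK
  obtain ⟨n, hn⟩ := (h.mem v hv k hk _ hg).2 rfl
  -- a neighbour in `Y`
  obtain ⟨n', hn', hnY⟩ : ∃ n', q (v + k) n' = q v w ∧ n' ∈ W ⊔ K q e := by
    rcases z2 (t n) with h5 | h5
    · exact ⟨n, hn, (hY n).2 h5⟩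
    · refine ⟨n + u, by rw [qa, hu, add_zero, hn], (hY _).2 ?_⟩
      rw [map_add, h5, z2ne htu]
      decide
  have hn'S : n' ∈ S q (q v w) := ⟨v + k, by rw [symm C.alt]; exact hn'⟩
  obtain ⟨a, ha, k', hk', rfl⟩ := Submodule.mem_sup.1 hnY
  have h5 := (h.mem a ha k' hk' _ hg).1 hn'S
  have h6 : (a + v) + (k' + k) ∈ S q (q v w) := by
    refine ⟨v + k, ?_⟩
    have : a + v + (k' + k) = (a + k') + (v + k) := by abel
    rw [this, qb, C.alt, add_zero, symm C.alt, hn']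
  have h7 := (h.mem _ (add_mem ha hv) _ (add_mem hk' hk) _ hg).1 h6
  rw [qb, h5, dd] at h7
  exact C.orb_ne h.max hg h7.symm

end Pool.Agent.HDOM
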