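import Pool.Agent.HDOM.Max

/-!
# Minimal flats and the orbit of a maximal symbol (Section 3)
-/

set_option autoImplicit false
set_option linter.unusedSectionVars false
set_option linter.unusedVariables false

namespace Pool.Agent.HDOM

open scoped BigOperators

variable {V B : Type} [AddCommGroup V] [Module (ZMod 2) V] [AddCommGroup B] [Module (ZMod 2) B]
  {q : V →ₗ[ZMod 2] V →ₗ[ZMod 2] B} [Finite V]

/-- `{v | v V_x = 0}` -/
def U (q : V →ₗ[ZMod 2] V →ₗ[ZMod 2] B) (x : V) : Submodule (ZMod 2) V where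
  carrier := {v | Le q x v}
  add_mem' := fun ha hb => Le.add ha hb
  zero_mem' := Le.zero x
  smul_mem' := by
    intro c a ha
    rcases z2 c with rfl | rfl
    · rw [zero_smul]
      exact Le.zero x
    · rw [one_smul]
      exact ha

theorem mem_U {x v : V} : v ∈ U q x ↔ Le q x v := Iff.rfl

/-- `w` represents `e` with respect to the flat of `x` -/
def Rp (q : V →ₗ[ZMod 2] V →ₗ[ZMod 2] B) (x : V) (e : B) (w : V) : Prop :=
  ∃ u, q u w = e ∧ Le q u x ∧ Le q x u

/-- `V_x` is inclusion-minimal -/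
def Mn (q : V →ₗ[ZMod 2] V →ₗ[ZMod 2] B) (x : V) : Prop :=
  x ≠ 0 ∧ ∀ y ≠ 0, Le q y x → Le q x y

theorem Rp.mem {x : V} (hL : Lnk q) {e : B} {w v : V} (h : Rp q x e w) (hv : v ∈ U q x) :
    v ∈ S q e ↔ q v w = e := by
  constructor
  · rintro ⟨m, hm⟩
    obtain ⟨u, h1, h2, h3⟩ := h
    obtain ⟨n, h4, h5⟩ := hL u w v m (by rw [h1, hm])
    have h6 : q x (w + n) = 0 := h2 _ (by rw [qa, h4, dd])
    rw [eq_of_zero (hv _ h6), h5, h1]
  · exact fun h => ⟨w, h⟩

theorem Rp.phi {x : V} (hL : Lnk q) {e : B} {w v : V} (h : Rp q x e w) (hv : v ∈ U q x) :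
    phi q e v = q v w := by
  obtain ⟨u, h1, h2, h3⟩ := h
  exact phi_eq hL h1 (h2.trans hv)

theorem Rp.uniq {x : V} (hL : Lnk q) {e : B} {w w' : V} (h : Rp q x e w) (h' : Rp q x e w') :
    q x (w + w') = 0 := by
  obtain ⟨u, h1, h2, h3⟩ := h
  have h4 := (h'.mem hL (mem_U.2 h3)).1 ⟨w, h1⟩
  exact h2 _ (by rw [qa, h1, h4, dd])

theorem Rp.ne {x : V} {e : B} {w : V} (h : Rp q x e w) (he : e ≠ 0) : q x w ≠ 0 := by
  obtain ⟨u, h1, h2, h3⟩ := h
  intro h
  exact he (by rw [← h1]; exact h3 w h)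

theorem card_map (U : Submodule (ZMod 2) V) (f : V →ₗ[ZMod 2] B) :
    Nat.card (U.map f) * Nat.card (U ⊓ LinearMap.ker f : Submodule (ZMod 2) V) = Nat.card U := by
  have h1 := Submodule.card_eq_card_quotient_mul_card (LinearMap.ker (f.domRestrict U))
  have h2 : Nat.card (U ⧸ LinearMap.ker (f.domRestrict U)) = Nat.card (U.map f) := by
    rw [Nat.card_congr (f.domRestrict U).quotKerEquivRange.toEquiv]
    congr 2
    rw [LinearMap.range_domRestrict]
  have h3 : Nat.card (LinearMap.ker (f.domRestrict U)) =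
      Nat.card (U ⊓ LinearMap.ker f : Submodule (ZMod 2) V) := by
    refine Nat.card_congr ⟨fun a => ⟨a.1.1, a.1.2, ?_⟩, fun a => ⟨⟨a.1, a.2.1⟩, ?_⟩,
      fun a => rfl, fun a => rfl⟩
    · exact LinearMap.mem_ker.2 (LinearMap.mem_ker.1 a.2)
    · exact LinearMap.mem_ker.2 (LinearMap.mem_ker.1 a.2.2)
  rw [h1, h2, h3]
  ring

theorem sub_ncard {M : Type} [AddCommGroup M] [Module (ZMod 2) M] (W : Submodule (ZMod 2) M) :
    (W : Set M).ncard = Nat.card W := (Nat.card_coe_set_eq (W : Set M)).symm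

theorem pow_card {M : Type} [AddCommGroup M] [Module (ZMod 2) M] (W : Submodule (ZMod 2) M)
    [Finite W] : ∃ a : ℕ, Nat.card W = 2 ^ a := by
  have : Module.Finite (ZMod 2) W := Module.Finite.of_finite
  exact ⟨Module.finrank (ZMod 2) W, by
    rw [Module.natCard_eq_pow_finrank (K := ZMod 2) (V := W), Nat.card_zmod]⟩

variable (C : Ctx q)
include C

theorem Ctx.rep {x : V} (hx : Mn q x) {e : B} (he : Sym q e) (h0 : e ≠ 0) :
    ∃ w, Rp q x e w := by
  obtain ⟨u, w, h1, h2⟩ := HDOM.dom C.dom x he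
  refine ⟨w, u, h1, h2, hx.2 u ?_ h2⟩
  rintro rfl
  rw [map_zero, LinearMap.zero_apply] at h1
  exact h0 h1.symm

theorem Ctx.o1 {x : V} {e : B} (he : MAX q e) {w v : V} (hw : Rp q x e w) (hv : v ∈ U q x)
    (h0 : q v w ≠ 0) : q v w ∈ Orb q e := by
  obtain ⟨u, h1, h2, h3⟩ := id hw
  have h4 : v + u ∈ U q x := add_mem hv h3
  refine ⟨v + u, fun h => ?_, ?_⟩
  · rw [hw.mem C.lnk h4, qb, h1] at h
    exact h0 (add_eq_right.1 h)
  · rw [hw.phi C.lnk h4, qb, h1, add_comm, dr]

theorem Ctx.o2 {x : V} {e : B} (he : MAX q e) {w w' v : V} (hw : Rp q x e w) (hv : v ∈ U q x)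
    (h0 : q v w ≠ 0) (hw' : Rp q x (q v w) w') : q x (w + w') = 0 := by
  obtain ⟨u, h1, h2, h3⟩ := id hw
  have h4 : v + u ∈ U q x := add_mem hv h3
  have h5 : v + u ∉ S q e := by
    intro h
    rw [hw.mem C.lnk h4, qb, h1] at h
    exact h0 (add_eq_right.1 h)
  obtain ⟨-, -, h6⟩ := C.step he h5
  have h7 : e + phi q e (v + u) = q v w := by
    rw [hw.phi C.lnk h4, qb, h1, add_comm, dr]
  rw [h7] at h6
  obtain ⟨u', g1, g2, g3⟩ := hw'
  have h8 := (h6 u').1 ⟨w', g1⟩
  rw [hw.mem C.lnk (add_mem g3 h4 : u' + (v + u) ∈ U q x), qb, qb, h1] at h8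
  have h9 : q u' w = q v w := by
    rw [← add_assoc] at h8
    exact deq (add_eq_right.1 h8)
  exact g2 _ (by rw [qa, h9, g1, dd])

/-- the subgroup `O ∪ {0}` -/
def Ctx.OO {e : B} (he : MAX q e) : Submodule (ZMod 2) B where
  carrier := {g | g = 0 ∨ g ∈ Orb q e}
  add_mem' := by
    rintro a b (rfl | ha) (rfl | hb)
    · left; rw [add_zero]
    · right; rwa [zero_add]
    · right; rwa [add_zero]
    · by_cases h : a = b
      · left; rw [h, dd]
      · right; exact C.orb_add he ha hb h
  zero_mem' := Or.inl rfl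
  smul_mem' := by
    intro c a ha
    rcases z2 c with rfl | rfl
    · rw [zero_smul]; exact Or.inl rfl
    · rw [one_smul]; exact ha

theorem Ctx.mem_OO {e : B} (he : MAX q e) {g : B} : g ∈ C.OO he ↔ g = 0 ∨ g ∈ Orb q e := Iff.rfl

theorem Ctx.finO {e : B} (he : MAX q e) : Finite (C.OO he) := by
  have h : (Set.range fun x => e + phi q e x).Finite := Set.finite_range _
  have h2 : (insert 0 (Set.range fun x => e + phi q e x) : Set B).Finite := h.insert 0
  refine (h2.subset ?_).to_subtype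
  rintro g (rfl | ⟨x, -, rfl⟩)
  · exact Set.mem_insert _ _
  · exact Set.mem_insert_of_mem _ ⟨x, rfl⟩

theorem Ctx.orb_ne {e g : B} (he : MAX q e) (hg : g ∈ Orb q e) : g ≠ 0 := (C.orb_max he hg).2.1

/-- the kernel of `v ↦ v w` on `U` -/
theorem Ctx.ker_eq {x : V} {e : B} (he : MAX q e) {w : V} (hw : Rp q x e w) :
    (U q x ⊓ LinearMap.ker (LinearMap.flip q w) : Submodule (ZMod 2) V) = U q x ⊓ K q e := by
  ext v
  rw [Submodule.mem_inf, Submodule.mem_inf, LinearMap.mem_ker, LinearMap.flip_apply]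
  refine and_congr_right fun hv => ?_
  rw [C.mem_K_iff he, hw.phi C.lnk hv, hw.mem C.lnk hv]
  constructor
  · intro h
    exact ⟨fun h' => he.2.1 (by rw [← h', h]), h⟩
  · exact fun h => h.2

/-- **Section 3**: if `U w` has at least three elements then `O ∪ {0} = U w` -/
theorem Ctx.sec3 {x : V} (hx : Mn q x) {e : B} (he : MAX q e) {w v₀ : V} (hw : Rp q x e w)
    (hv : v₀ ∈ U q x) (h0 : q v₀ w ≠ 0) (h1 : q v₀ w ≠ e) {g : B} (hg : g ∈ Orb q e) :
    ∃ v ∈ U q x, q v w = g := by
  classical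
  have hxU : x ∈ U q x := Le.refl x
  have hfin := C.finO he
  -- representatives
  have hrep : ∀ g ∈ Orb q e, ∃ w, Rp q x g w := fun g hg =>
    C.rep hx (C.orb_max he hg).1 (C.orb_ne he hg)
  choose! W hW using hrep
  let T : Submodule (ZMod 2) B := C.OO he ⊓ LinearMap.range (q x)
  have hTfin : Finite T := by
    have : ((T : Set B)).Finite := (Set.toFinite (C.OO he : Set B)).subset fun a ha => ha.1
    exact this.to_subtype
  have hOfin : (Orb q e).Finite :=
    (Set.toFinite (C.OO he : Set B)).subset fun a ha => Or.inr ha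
  set s : Finset B := hOfin.toFinset with hs
  have hTf : ((T : Set B) \ {0}).Finite := (Set.toFinite (T : Set B)).subset Set.sdiff_subset
  set t : Finset B := hTf.toFinset with ht
  have hmap : ∀ g ∈ Orb q e, q x (W g) ∈ Orb q e := by
    intro g hg
    rw [← C.orb_orb he hg]
    exact C.o1 (C.orb_max he hg) (hW g hg) hxU ((hW g hg).ne (C.orb_ne he hg))
  have hst : ∀ g ∈ s, q x (W g) ∈ t := by
    intro g hg
    rw [hs, Set.Finite.mem_toFinset] at hg
    rw [ht, Set.Finite.mem_toFinset]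
    exact ⟨⟨Or.inr (hmap g hg), LinearMap.mem_range_self _ _⟩, C.orb_ne he (hmap g hg)⟩
  have hcount := Finset.card_eq_sum_card_fiberwise (f := fun g => q x (W g)) (s := s) (t := t) hst
  -- the fibres
  have hUx : 0 < Nat.card (U q x ⊓ K q e : Submodule (ZMod 2) V) := Nat.card_pos
  have hNc : ∀ g ∈ Orb q e, Nat.card ((U q x).map (LinearMap.flip q (W g))) =
      Nat.card ((U q x).map (LinearMap.flip q w)) := by
    intro g hg
    have e1 := card_map (U q x) (LinearMap.flip q (W g))
    have e2 := card_map (U q x) (LinearMap.flip q w)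
    rw [C.ker_eq (C.orb_max he hg) (hW g hg), C.orb_K he hg] at e1
    rw [C.ker_eq he hw] at e2
    exact Nat.eq_of_mul_eq_mul_right hUx (by rw [e1, e2])
  set N := Nat.card ((U q x).map (LinearMap.flip q w)) with hN
  have hfib : ∀ b ∈ t, (s.filter fun g => q x (W g) = b).card = N - 1 := by
    intro b hb
    rw [ht, Set.Finite.mem_toFinset] at hb
    obtain ⟨⟨hb1, m, hm⟩, hb0⟩ := hb
    have hbO : b ∈ Orb q e := by
      rcases hb1 with h | h
      · exact absurd h hb0
      · exact h
    have hbm := C.orb_max he hbO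
    have hxb : q x (W b) = b := ((hW b hbO).mem C.lnk hxU).1 ⟨m, hm⟩
    have hset : ((s.filter fun g => q x (W g) = b) : Set B) =
        (((U q x).map (LinearMap.flip q (W b)) : Submodule (ZMod 2) B) : Set B) \ {0} := by
      ext g
      rw [Finset.coe_filter, Set.mem_ofPred_eq, hs, Set.Finite.mem_toFinset]
      constructor
      · rintro ⟨hg1, hg2⟩
        refine ⟨?_, C.orb_ne he hg1⟩
        obtain ⟨u, k1, k2, k3⟩ := hW g hg1
        refine ⟨u, k3, ?_⟩
        rw [LinearMap.flip_apply]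
        have h2 : q x (W b + W g) = 0 := by rw [qa, hxb, hg2, dd]
        have h3 : q u (W b + W g) = 0 := k3 _ h2
        rw [eq_of_zero h3, k1]
      · rintro ⟨⟨v, hv, hv2⟩, hg0⟩
        rw [LinearMap.flip_apply] at hv2
        have hg0' : q v (W b) ≠ 0 := by rw [hv2]; exact hg0
        have h2 : g ∈ Orb q b := by
          rw [← hv2]
          exact C.o1 hbm (hW b hbO) hv hg0'
        have h3 : g ∈ Orb q e := by rwa [C.orb_orb he hbO] at h2
        refine ⟨h3, ?_⟩
        have h4 := C.o2 hbm (hW b hbO) hv hg0' (w' := W g) (by rw [hv2]; exact hW g h3)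
        have h5 := eq_of_zero h4
        show q x (W g) = b
        rw [← h5, hxb]
    have h2 : (s.filter fun g => q x (W g) = b).card =
        (((s.filter fun g => q x (W g) = b) : Finset B) : Set B).ncard :=
      (Set.ncard_coe_finset _).symm
    rw [h2, hset, Set.ncard_sdiff_singleton_of_mem (zero_mem _)]
    have h3 : ((((U q x).map (LinearMap.flip q (W b)) : Submodule (ZMod 2) B)) : Set B).ncard =
        Nat.card ((U q x).map (LinearMap.flip q (W b))) := sub_ncard _
    rw [h3, hNc b hbO]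
  rw [Finset.sum_congr rfl hfib, Finset.sum_const, smul_eq_mul] at hcount
  -- cardinalities are powers of two
  have hUwfin : Finite ((U q x).map (LinearMap.flip q w)) := by
    have : (((U q x).map (LinearMap.flip q w) : Submodule (ZMod 2) B) : Set B).Finite := by
      rw [Submodule.map_coe]
      exact (Set.toFinite _).image _
    exact this.to_subtype
  obtain ⟨k, hk⟩ := pow_card ((U q x).map (LinearMap.flip q w))
  obtain ⟨a, ha⟩ := pow_card (C.OO he)
  obtain ⟨b, hb⟩ := pow_card T
  have hscard : s.card + 1 = 2 ^ a := by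
    rw [← ha]
    have h2 : (C.OO he : Set B) = insert 0 (s : Set B) := by
      ext g
      rw [hs, Set.Finite.coe_toFinset]
      exact Iff.rfl
    have h3 : Nat.card (C.OO he) = (C.OO he : Set B).ncard := (sub_ncard _).symm
    rw [h3, h2, Set.ncard_insert_of_notMem _ (Set.toFinite _), Set.ncard_coe_finset]
    intro h
    rw [hs, Set.Finite.coe_toFinset] at h
    exact C.orb_ne he h rfl
  have htcard : t.card + 1 = 2 ^ b := by
    rw [← hb]
    have h2 : (T : Set B) = insert 0 (t : Set B) := by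
      rw [ht, Set.Finite.coe_toFinset, Set.insert_sdiff_singleton, Set.insert_eq_of_mem]
      exact zero_mem T
    have h3 : Nat.card T = (T : Set B).ncard := (sub_ncard _).symm
    rw [h3, h2, Set.ncard_insert_of_notMem _ (Set.toFinite _), Set.ncard_coe_finset]
    intro h
    rw [ht, Set.Finite.coe_toFinset] at h
    exact h.2 rfl
  -- at least three elements in `U w`
  have hk2 : 2 ≤ k := by
    have h3 : 3 ≤ N := by
      have hsub : (({0, e, q v₀ w} : Finset B) : Set B) ⊆
          (((U q x).map (LinearMap.flip q w) : Submodule (ZMod 2) B) : Set B) := by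
        intro g hg
        rw [Finset.mem_coe, Finset.mem_insert, Finset.mem_insert, Finset.mem_singleton] at hg
        obtain ⟨u, k1, k2, k3⟩ := hw
        rcases hg with rfl | rfl | rfl
        · exact zero_mem _
        · exact ⟨u, k3, k1⟩
        · exact ⟨v₀, hv, rfl⟩
      have h4 := Set.ncard_le_ncard hsub (Set.toFinite _)
      have h5 : ({0, e, q v₀ w} : Finset B).card = 3 := by
        rw [Finset.card_insert_of_notMem, Finset.card_insert_of_notMem, Finset.card_singleton]
        · rw [Finset.mem_singleton]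
          exact fun h => h1 h.symm
        · rw [Finset.mem_insert, Finset.mem_singleton]
          rintro (h | h)
          · exact he.2.1 h.symm
          · exact h0 h.symm
      rw [Set.ncard_coe_finset, h5, sub_ncard] at h4
      exact h4
    by_contra hlt
    have : k ≤ 1 := by omega
    have : 2 ^ k ≤ 2 ^ 1 := Nat.pow_le_pow_right (by norm_num) this
    omega
  -- the congruence modulo 4
  have hb1 : b ≤ 1 := by
    by_contra hb2
    have hb2 : 2 ≤ b := by omega
    obtain ⟨b', rfl⟩ := Nat.exists_eq_add_of_le hb2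
    obtain ⟨k', rfl⟩ := Nat.exists_eq_add_of_le hk2
    rw [pow_add] at htcard hk
    have hp1 : 0 < 2 ^ b' := by positivity
    have hp2 : 0 < 2 ^ k' := by positivity
    set p := 2 ^ b' with hp
    set r := 2 ^ k' with hr
    have e1 : t.card = 4 * p - 1 := by omega
    have e2 : N - 1 = 4 * r - 1 := by omega
    rw [e1, e2] at hcount
    have e3 : (4 * p - 1) * (4 * r - 1) + 4 * (p + r) = 16 * (p * r) + 1 := by
      obtain ⟨p', hp'⟩ : ∃ p', p = p' + 1 := ⟨p - 1, by omega⟩
      obtain ⟨r', hr'⟩ : ∃ r', r = r' + 1 := ⟨r - 1, by omega⟩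
      rw [hp', hr']
      have f1 : 4 * (p' + 1) - 1 = 4 * p' + 3 := by omega
      have f2 : 4 * (r' + 1) - 1 = 4 * r' + 3 := by omega
      rw [f1, f2]
      ring
    have e4 : s.card % 4 = 1 := by
      rw [hcount]
      omega
    have e5 : 9 ≤ s.card := by
      rw [hcount]
      calc 9 = 3 * 3 := rfl
        _ ≤ _ := Nat.mul_le_mul (by omega) (by omega)
    rcases Nat.lt_or_ge a 2 with h | h
    · have : 2 ^ a ≤ 2 ^ 1 := Nat.pow_le_pow_right (by norm_num) (by omega)
      omega
    · obtain ⟨a', rfl⟩ := Nat.exists_eq_add_of_le h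
      rw [pow_add] at hscard
      omega
  have ht1 : t.card ≤ 1 := by
    have : 2 ^ b ≤ 2 ^ 1 := Nat.pow_le_pow_right (by norm_num) hb1
    omega
  -- conclusion
  have hmem1 : q x w ∈ t := by
    rw [ht, Set.Finite.mem_toFinset]
    exact ⟨⟨Or.inr (C.o1 he hw hxU (hw.ne he.2.1)), LinearMap.mem_range_self _ _⟩, hw.ne he.2.1⟩
  have hmem2 : q x (W g) ∈ t := hst g (by rw [hs, Set.Finite.mem_toFinset]; exact hg)
  have heq := Finset.card_le_one.1 ht1 _ hmem2 _ hmem1
  obtain ⟨u, k1, k2, k3⟩ := hW g hg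
  refine ⟨u, k3, ?_⟩
  have h2 : q x (w + W g) = 0 := by rw [qa, heq, dd]
  have h3 : q u (w + W g) = 0 := k3 _ h2
  rw [eq_of_zero h3, k1]

end Pool.Agent.HDOM
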