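import Pool.Agent.HDOM.Basic

/-!
# The Fourier identity and the lemma `S_e = S_g → e = g`
-/

set_option autoImplicit false
set_option linter.unusedSectionVars false
set_option linter.unusedVariables false

namespace Pool.Agent.HDOM

open scoped BigOperators
open Classical

variable {V B : Type} [AddCommGroup V] [Module (ZMod 2) V] [AddCommGroup B] [Module (ZMod 2) B]
  {q : V →ₗ[ZMod 2] V →ₗ[ZMod 2] B} [Fintype V]

/-- number of elements of `V_x` -/
noncomputable def cnt (q : V →ₗ[ZMod 2] V →ₗ[ZMod 2] B) (x : V) : ℤ :=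
  ∑ v : V, if q x v = 0 then 1 else 0

theorem cnt_pos (x : V) : 0 < cnt q x := by
  unfold cnt
  apply Finset.sum_pos'
  · intro v _
    split_ifs
    · exact zero_le_one
    · exact le_rfl
  · exact ⟨0, Finset.mem_univ _, by rw [map_zero, if_pos rfl]; exact zero_lt_one⟩

theorem cnt_eq {x v : V} {e : B} (h : q x v = e) :
    (∑ w : V, if q x w = e then (1 : ℤ) else 0) = cnt q x := by
  unfold cnt
  rw [← Equiv.sum_comp (Equiv.addRight v) (fun w => if q x w = e then (1 : ℤ) else 0)]
  refine Finset.sum_congr rfl fun w _ => ?_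
  have h1 : (q x (w + v) = e) ↔ q x w = 0 := by
    rw [qa, h]
    constructor
    · intro h2
      exact add_eq_right.1 h2
    · intro h2
      rw [h2, zero_add]
  rw [Equiv.coe_addRight]
  simp only [h1]

/-- signed number of the `e`-neighbours of `y` -/
noncomputable def T (q : V →ₗ[ZMod 2] V →ₗ[ZMod 2] B) (e : B) (l : Dl V) (y : V) : ℤ :=
  ∑ v : V, if q y v = e then sg (l v) else 0

theorem T_not_mem {e : B} {l : Dl V} {y : V} (h : y ∉ S q e) : T q e l y = 0 :=
  Finset.sum_eq_zero fun v _ => if_neg fun h' => h ⟨v, h'⟩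

theorem T_pp {e : B} {l : Dl V} {y v : V} (h : q y v = e) (hl : PP q l y) :
    T q e l y = cnt q y * sg (l v) := by
  rw [← cnt_eq h, Finset.sum_mul]
  refine Finset.sum_congr rfl fun w _ => ?_
  by_cases h1 : q y w = e
  · rw [if_pos h1, if_pos h1, one_mul]
    have h2 : l (w + v) = 0 := hl _ (by rw [qa, h, h1, dd])
    rw [map_add] at h2
    rw [deq h2]
  · rw [if_neg h1, if_neg h1, zero_mul]

theorem T_not_pp {e : B} {l : Dl V} {y : V} (hl : ¬ PP q l y) : T q e l y = 0 := by
  unfold PP at hl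
  push Not at hl
  obtain ⟨v, hv, h1⟩ := hl
  have h2 : T q e l y = - T q e l y := by
    conv_lhs => unfold T
    rw [← Equiv.sum_comp (Equiv.addRight v) (fun w => if q y w = e then sg (l w) else 0)]
    unfold T
    rw [← Finset.sum_neg_distrib]
    refine Finset.sum_congr rfl fun w _ => ?_
    rw [Equiv.coe_addRight]
    have h3 : q y (w + v) = q y w := by rw [qa, hv, add_zero]
    rw [h3]
    by_cases h4 : q y w = e
    · rw [if_pos h4, if_pos h4, map_add, sg_add, z2ne h1, sg_one]
      ring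
    · rw [if_neg h4, if_neg h4, neg_zero]
  omega

/-- the Fourier identity -/
theorem four (hA : Alt q) (e : B) (l : Dl V) :
    (∑ x : V, (if x ∈ S q e then cnt q x else 0) * sg (l x)) = ∑ y : V, T q e l y := by
  have h1 : ∀ x : V, (if x ∈ S q e then cnt q x else 0) * sg (l x) =
      ∑ v : V, if q x v = e then sg (l x) else 0 := by
    intro x
    by_cases hx : x ∈ S q e
    · obtain ⟨v, hv⟩ := hx
      rw [if_pos (mem_S hv), ← cnt_eq hv, Finset.sum_mul]
      refine Finset.sum_congr rfl fun w _ => ?_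
      by_cases h1 : q x w = e
      · rw [if_pos h1, if_pos h1, one_mul]
      · rw [if_neg h1, if_neg h1, zero_mul]
    · rw [if_neg hx, zero_mul]
      symm
      exact Finset.sum_eq_zero fun v _ => if_neg fun h' => hx ⟨v, h'⟩
  rw [Finset.sum_congr rfl fun x _ => h1 x, Finset.sum_comm]
  refine Finset.sum_congr rfl fun y _ => ?_
  unfold T
  refine Finset.sum_congr rfl fun x _ => ?_
  rw [symm hA x y]

/-- coherence of the signs -/
theorem coh (hL : Lnk q) {e : B} {l : Dl V} {x y v w : V} (hx : PP q l x) (hv : q x v = e)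
    (hy : PP q l y) (hw : q y w = e) : l v = l w := by
  obtain ⟨u, h1, h2⟩ := hL x v y w (by rw [hv, hw])
  have e1 : l (v + u) = 0 := hx _ (by rw [qa, h1, dd])
  have e2 : l (w + u) = 0 := hy _ (by rw [qa, h2, hw, hv, dd])
  rw [map_add] at e1 e2
  rw [deq e1, deq e2]

/-- total mass of `P_l ∩ S_e` -/
noncomputable def A (q : V →ₗ[ZMod 2] V →ₗ[ZMod 2] B) (e : B) (l : Dl V) : ℤ :=
  ∑ y : V, if PP q l y ∧ y ∈ S q e then cnt q y else 0

theorem A_pos {e : B} {l : Dl V} {x : V} (hx : PP q l x) (h : x ∈ S q e) : 0 < A q e l := by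
  unfold A
  apply Finset.sum_pos'
  · intro v _
    split_ifs
    · exact (cnt_pos v).le
    · exact le_rfl
  · exact ⟨x, Finset.mem_univ _, by rw [if_pos ⟨hx, h⟩]; exact cnt_pos x⟩

theorem sumT (hL : Lnk q) {e : B} {l : Dl V} {x v : V} (hx : PP q l x) (hv : q x v = e) :
    (∑ y : V, T q e l y) = sg (l v) * A q e l := by
  unfold A
  rw [Finset.mul_sum]
  refine Finset.sum_congr rfl fun y _ => ?_
  by_cases h : PP q l y ∧ y ∈ S q e
  · obtain ⟨w, hw⟩ := h.2
    rw [if_pos h, T_pp hw h.1, coh hL hx hv h.1 hw]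
    ring
  · rw [if_neg h, mul_zero]
    rcases not_and_or.1 h with h1 | h1
    · exact T_not_pp h1
    · exact T_not_mem h1

/-- **PKL** -/
theorem pkl (hA : Alt q) (hL : Lnk q) {e g : B} (h : S q e = S q g) (he : Sym q e) : e = g := by
  obtain ⟨x, v, hv⟩ := he
  have hx : x ∈ S q g := by rw [← h]; exact mem_S hv
  obtain ⟨w, hw⟩ := hx
  by_contra hne
  have h1 : v + w ∉ LinearMap.ker (q x) := by
    intro h2
    rw [LinearMap.mem_ker, qa, hv, hw] at h2
    exact hne (deq h2)
  obtain ⟨l, hl1, hl2⟩ := exfun h1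
  have hP : PP q l x := fun u hu => hl2 u (LinearMap.mem_ker.2 hu)
  have e1 := four hA e l
  have e2 := four hA g l
  rw [sumT hL hP hv] at e1
  rw [sumT hL hP hw] at e2
  rw [← h, e1] at e2
  have hAe : A q e l = A q g l := by unfold A; rw [h]
  rw [← hAe] at e2
  have hpos := A_pos (q := q) hP (mem_S hv)
  have h3 : sg (l v) = sg (l w) := mul_right_cancel₀ hpos.ne' e2
  have h4 := sg_inj h3
  rw [map_add, h4, dd] at hl1
  exact zero_ne_one hl1

end Pool.Agent.HDOM
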