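import Pool.Agent.HDOM.Four

/-!
# Maximal symbols
-/

set_option autoImplicit false
set_option linter.unusedSectionVars false
set_option linter.unusedVariables false

namespace Pool.Agent.HDOM

open scoped BigOperators

variable {V B : Type} [AddCommGroup V] [Module (ZMod 2) V] [AddCommGroup B] [Module (ZMod 2) B]
  {q : V →ₗ[ZMod 2] V →ₗ[ZMod 2] B} [Finite V]

/-- `e ≠ 0` is a symbol with `S_e` inclusion-maximal -/
def MAX (q : V →ₗ[ZMod 2] V →ₗ[ZMod 2] B) (e : B) : Prop :=
  Sym q e ∧ e ≠ 0 ∧ ∀ g, g ≠ 0 → S q e ⊆ S q g → g = e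

/-- the standing assumptions -/
structure Ctx (q : V →ₗ[ZMod 2] V →ₗ[ZMod 2] B) : Prop where
  alt : Alt q
  lnk : Lnk q
  dom : DOM q

variable (C : Ctx q)
include C

theorem Ctx.pkl {e g : B} (h : S q e = S q g) (he : Sym q e) : e = g := by
  have := Fintype.ofFinite V
  exact HDOM.pkl C.alt C.lnk h he

theorem Ctx.phi_eq {e : B} {x y v : V} (h : q y v = e) (hy : Le q y x) :
    phi q e x = q x v := HDOM.phi_eq C.lnk h hy

theorem Ctx.trans {e : B} {z : V} (hz : z ∈ S q e) (x : V) :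
    z + x ∈ S q (e + phi q e x) := HDOM.trans C.lnk C.dom hz x

theorem Ctx.ne {e : B} (he : Sym q e) {x : V} (hx : x ∉ S q e) : e + phi q e x ≠ 0 := fun h =>
  hx (mem_of_phi C.lnk C.dom he (deq h).symm)

theorem Ctx.sym {e : B} (he : Sym q e) (x : V) : Sym q (e + phi q e x) := by
  obtain ⟨a, b, h⟩ := he
  exact sym_of_mem (C.trans (mem_S h) x)

theorem Ctx.above {e : B} (he : Sym q e) (h0 : e ≠ 0) : ∃ g, MAX q g ∧ S q e ⊆ S q g := by
  have key : ∀ (n : ℕ) (e : B), Sym q e → e ≠ 0 → Nat.card V ≤ (S q e).ncard + n →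
      ∃ g, MAX q g ∧ S q e ⊆ S q g := by
    intro n
    induction n with
    | zero =>
      intro e he h0 hn
      refine ⟨e, ⟨he, h0, fun g hg hs => ?_⟩, le_rfl⟩
      have h1 : S q e = S q g := by
        apply Set.eq_of_subset_of_ncard_le hs
        calc (S q g).ncard ≤ Nat.card V := Set.ncard_le_card _
          _ ≤ _ := by simpa using hn
      exact (C.pkl h1 he).symm
    | succ n ih =>
      intro e he h0 hn
      by_cases hm : MAX q e
      · exact ⟨e, hm, le_rfl⟩
      · unfold MAX at hm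
        push Not at hm
        obtain ⟨g, hg, hs, hne⟩ := hm he h0
        obtain ⟨a, b, hab⟩ := he
        have hsg : Sym q g := sym_of_mem (hs (mem_S hab))
        have hlt : (S q e).ncard < (S q g).ncard := by
          apply Set.ncard_lt_ncard _ (Set.toFinite _)
          refine ⟨hs, fun hs' => hne ?_⟩
          exact (C.pkl (Set.Subset.antisymm hs hs') ⟨a, b, hab⟩).symm
        obtain ⟨k, hk, hk'⟩ := ih g hsg hg (by omega)
        exact ⟨k, hk, hs.trans hk'⟩
  exact key (Nat.card V) e he h0 (by omega)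

/-- the translate of a maximal slot set -/
theorem Ctx.step {e : B} (he : MAX q e) {x : V} (hx : x ∉ S q e) :
    x ∉ S q (e + phi q e x) ∧
      (e + phi q e x) + phi q (e + phi q e x) x = e ∧
      ∀ z, z ∈ S q (e + phi q e x) ↔ z + x ∈ S q e := by
  set g := e + phi q e x with hg
  have hgne : g ≠ 0 := C.ne he.1 hx
  have hgs : Sym q g := C.sym he.1 x
  have h1 : x ∉ S q g := by
    rintro ⟨v, hv⟩
    obtain ⟨w, hw⟩ := phi_mem C.lnk C.dom he.1 x
    apply hx
    refine ⟨v + w, ?_⟩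
    rw [qa, hv, hg, hw, dr]
  have h2 : g + phi q g x ≠ 0 := C.ne hgs h1
  have h3 : S q e ⊆ S q (g + phi q g x) := by
    intro z hz
    have h4 := C.trans hz x
    rw [← hg] at h4
    have h5 := C.trans h4 x
    rwa [dr] at h5
  have h4 := he.2.2 _ h2 h3
  refine ⟨h1, h4, fun z => ⟨fun hz => ?_, fun hz => ?_⟩⟩
  · have h5 := C.trans hz x
    rwa [h4] at h5
  · have h5 := C.trans hz x
    rwa [dr] at h5

theorem Ctx.step_max {e : B} (he : MAX q e) {x : V} (hx : x ∉ S q e) :
    MAX q (e + phi q e x) := by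
  obtain ⟨h1, h2, h3⟩ := C.step he hx
  set g := e + phi q e x with hg
  refine ⟨C.sym he.1 x, C.ne he.1 hx, fun k hk hs => ?_⟩
  have hne : (S q g).Nonempty := by
    obtain ⟨a, b, h⟩ := C.sym he.1 x
    exact ⟨a, mem_S h⟩
  have hgs : Sym q g := C.sym he.1 x
  have hks : Sym q k := by
    obtain ⟨a, ha⟩ := hne
    exact sym_of_mem (hs ha)
  by_cases hxk : x ∈ S q k
  · by_contra hkg
    have hh0 : k + g ≠ 0 := fun h => hkg (deq h)
    have hsub : S q g ⊆ S q (k + g) := by
      rintro z ⟨v, hv⟩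
      obtain ⟨w, hw⟩ := hs (mem_S hv)
      exact ⟨w + v, by rw [qa, hw, hv]⟩
    have hp : phi q (k + g) x = k + phi q g x := by
      rw [phi_add C.lnk C.dom hgs hs, phi_of_mem C.lnk hxk]
    have hf : (k + g) + phi q (k + g) x = e := by
      rw [hp, ← h2]
      calc k + g + (k + phi q g x) = (k + k) + (g + phi q g x) := by abel
        _ = _ := by rw [dd, zero_add]
    have hsub' : S q (k + g) ⊆ S q g := by
      intro z hz
      have h5 := C.trans hz x
      rw [hf] at h5
      exact (h3 z).2 h5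
    have h6 := C.pkl (Set.Subset.antisymm hsub hsub') hgs
    apply hk
    have : k + g + g = 0 := by rw [← h6, dd]
    rwa [dr] at this
  · have h5 : S q e ⊆ S q (k + phi q k x) := by
      intro z hz
      have h6 : z + x ∈ S q g := by
        rw [h3, dr]
        exact hz
      have h7 := C.trans (hs h6) x
      rwa [dr] at h7
    have h8 := he.2.2 _ (C.ne hks hxk) h5
    have h9 : S q k ⊆ S q g := by
      intro z hz
      have h10 := C.trans hz x
      rw [h8] at h10
      exact (h3 z).2 h10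
    exact C.pkl (Set.Subset.antisymm h9 hs) hks

omit C in
/-- the stabiliser of `S_e` -/
def K (q : V →ₗ[ZMod 2] V →ₗ[ZMod 2] B) (e : B) : Submodule (ZMod 2) V where
  carrier := {x | ∀ z, z ∈ S q e ↔ z + x ∈ S q e}
  add_mem' := by
    intro a b ha hb z
    rw [ha z, hb (z + a), add_assoc]
  zero_mem' := fun z => by rw [add_zero]
  smul_mem' := by
    intro c a ha
    rcases z2 c with rfl | rfl
    · rw [zero_smul]
      exact fun z => by rw [add_zero]
    · rw [one_smul]
      exact ha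

omit C in
theorem mem_K {e : B} {x : V} : x ∈ K q e ↔ ∀ z, z ∈ S q e ↔ z + x ∈ S q e := Iff.rfl

theorem Ctx.mem_K_iff {e : B} (he : MAX q e) {x : V} :
    x ∈ K q e ↔ x ∉ S q e ∧ phi q e x = 0 := by
  constructor
  · intro hx
    have h1 : x ∉ S q e := by
      intro h
      have h2 := (hx x).1 h
      rw [dd] at h2
      exact zero_not_mem he.2.1 h2
    refine ⟨h1, ?_⟩
    have h2 : S q e ⊆ S q (e + phi q e x) := by
      intro z hz
      have h3 := C.trans ((hx z).1 hz) x
      rwa [dr] at h3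
    have h3 := he.2.2 _ (C.ne he.1 h1) h2
    exact add_eq_left.1 h3
  · rintro ⟨h1, h2⟩ z
    constructor
    · intro hz
      have h3 := C.trans hz x
      rwa [h2, add_zero] at h3
    · intro hz
      have h3 := C.trans hz x
      rwa [h2, add_zero, dr] at h3

theorem Ctx.phi_K {e : B} (he : MAX q e) {x : V} (hx : x ∈ K q e) : phi q e x = 0 :=
  ((C.mem_K_iff he).1 hx).2

omit C in
/-- the orbit of `e` -/
def Orb (q : V →ₗ[ZMod 2] V →ₗ[ZMod 2] B) (e : B) : Set B :=
  {g | ∃ x, x ∉ S q e ∧ g = e + phi q e x}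

theorem Ctx.orb_self {e : B} (he : MAX q e) : e ∈ Orb q e :=
  ⟨0, zero_not_mem he.2.1, by rw [phi_zero C.lnk C.dom he.1, add_zero]⟩

theorem Ctx.orb_max {e g : B} (he : MAX q e) (hg : g ∈ Orb q e) : MAX q g := by
  obtain ⟨x, hx, rfl⟩ := hg
  exact C.step_max he hx

theorem Ctx.orb_K {e g : B} (he : MAX q e) (hg : g ∈ Orb q e) : K q g = K q e := by
  obtain ⟨x, hx, rfl⟩ := hg
  obtain ⟨-, -, h3⟩ := C.step he hx
  ext k
  rw [mem_K, mem_K]
  constructor
  · intro h z
    have h4 := h (z + x)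
    rw [h3, h3, dr, add_right_comm z x k, dr] at h4
    exact h4
  · intro h z
    rw [h3, h3, add_right_comm]
    exact h (z + x)

theorem Ctx.orb_orb {e g : B} (he : MAX q e) (hg : g ∈ Orb q e) : Orb q g = Orb q e := by
  have key : ∀ {e g : B}, MAX q e → g ∈ Orb q e → Orb q g ⊆ Orb q e := by
    rintro e g he ⟨x, hx, rfl⟩ k ⟨y, hy, rfl⟩
    obtain ⟨-, -, h3⟩ := C.step he hx
    have hm := C.step_max he hx
    set g := e + phi q e x with hg
    obtain ⟨-, -, h4⟩ := C.step hm hy
    have h5 : x + y ∉ S q e := by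
      intro h
      exact hy ((h3 y).2 (by rwa [add_comm]))
    refine ⟨x + y, h5, ?_⟩
    obtain ⟨-, -, h6⟩ := C.step he h5
    apply C.pkl _ (C.sym hm.1 y)
    ext z
    rw [h4, h3, h6, add_assoc, add_comm y x]
  refine Set.Subset.antisymm (key he hg) (key (C.orb_max he hg) ?_)
  obtain ⟨x, hx, rfl⟩ := hg
  obtain ⟨h1, h2, -⟩ := C.step he hx
  exact ⟨x, h1, h2.symm⟩

/-- Section 2: `O ∪ {0}` is closed under addition -/
theorem Ctx.orb_add0 {e : B} (he : MAX q e) {a : V} (ha : a ∉ S q e) (hK : a ∉ K q e) :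
    phi q e a ∈ Orb q e := by
  have h0 : phi q e a ≠ 0 := fun h => hK ((C.mem_K_iff he).2 ⟨ha, h⟩)
  obtain ⟨u, w, h1, h2⟩ := HDOM.dom C.dom a he.1
  have h3 : phi q e a = q a w := C.phi_eq h1 h2
  have h4 : phi q e (u + a) = e + phi q e a := by
    rw [C.phi_eq h1 ((Le.refl u).add h2), qb, h1, h3]
  refine ⟨u + a, fun h => ?_, ?_⟩
  · rw [phi_of_mem C.lnk h] at h4
    exact h0 (add_eq_left.1 h4.symm)
  · rw [h4, dl]

theorem Ctx.orb_add {e g k : B} (he : MAX q e) (hg : g ∈ Orb q e) (hk : k ∈ Orb q e)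
    (hne : g ≠ k) : g + k ∈ Orb q e := by
  rw [← C.orb_orb he hg] at hk ⊢
  have hm := C.orb_max he hg
  obtain ⟨a, ha, rfl⟩ := hk
  have h0 : phi q g a ≠ 0 := fun h => hne (by rw [h, add_zero])
  rw [dl]
  exact C.orb_add0 hm ha fun hK => h0 (C.phi_K hm hK)

end Pool.Agent.HDOM
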