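import Pool.Agent.HDOM.Flat

/-!
# Section 4: the complement of a maximal slot set which is not a subgroup
-/

set_option autoImplicit false
set_option linter.unusedSectionVars false
set_option linter.unusedVariables false

namespace Pool.Agent.HDOM

open scoped BigOperators

variable {V B : Type} [AddCommGroup V] [Module (ZMod 2) V] [AddCommGroup B] [Module (ZMod 2) B]
  {q : V →ₗ[ZMod 2] V →ₗ[ZMod 2] B}

/-- the situation of Section 4 -/
structure Sit (q : V →ₗ[ZMod 2] V →ₗ[ZMod 2] B) (e : B) (W : Submodule (ZMod 2) V) (w : V) :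
    Prop where
  max : MAX q e
  mem : ∀ v ∈ W, ∀ k ∈ K q e, ∀ g ∈ Orb q e, (v + k ∈ S q g ↔ q v w = g)
  out : ∀ x, x ∉ W ⊔ K q e → ∀ g ∈ Orb q e, x ∈ S q g
  orb : ∀ g, g ∈ Orb q e ↔ g ≠ 0 ∧ ∃ v ∈ W, q v w = g
  ker : ∀ v ∈ W, q v w = 0 → v ∈ K q e
  phi : ∀ v ∈ W, ∀ k ∈ K q e, ∀ g ∈ Orb q e, HDOM.phi q g (v + k) = q v w

theorem exists_min [Finite V] {a : V} (ha : a ≠ 0) : ∃ x, Mn q x ∧ Le q x a := by
  have hs : {y : V | y ≠ 0 ∧ Le q y a}.Finite := Set.toFinite _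
  obtain ⟨x, ⟨hx0, hxa⟩, hm⟩ := Set.exists_min_image _
    (fun y => Nat.card (LinearMap.ker (q y))) hs ⟨a, ha, Le.refl a⟩
  refine ⟨x, ⟨hx0, fun y hy hyx => ?_⟩, hxa⟩
  have h1 := hm y ⟨hy, hyx.trans hxa⟩
  have h2 : LinearMap.ker (q y) ≤ LinearMap.ker (q x) := fun v hv =>
    LinearMap.mem_ker.2 (hyx v (LinearMap.mem_ker.1 hv))
  have h3 : (LinearMap.ker (q y) : Set V) = LinearMap.ker (q x) := by
    apply Set.eq_of_subset_of_ncard_le h2
    rw [sub_ncard, sub_ncard]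
    exact h1
  intro v hv
  have h4 : v ∈ (LinearMap.ker (q x) : Set V) := LinearMap.mem_ker.2 hv
  rw [← h3] at h4
  exact LinearMap.mem_ker.1 h4

theorem Ctx.sit [Finite V] (C : Ctx q) {e : B} (he : MAX q e) {a : V} (ha : a ∉ S q e)
    (hK : a ∉ K q e) : ∃ W w, Sit q e W w ∧ ∃ v ∈ W, q v w ≠ 0 ∧ q v w ≠ e := by
  have ha0 : a ≠ 0 := by
    rintro rfl
    exact hK (zero_mem _)
  obtain ⟨x, hx, hxa⟩ := exists_min (q := q) ha0
  obtain ⟨w, hw⟩ := C.rep hx he.1 he.2.1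
  have haU : a ∈ U q x := hxa
  have hxU : x ∈ U q x := Le.refl x
  have hphi0 : phi q e a ≠ 0 := fun h => hK ((C.mem_K_iff he).2 ⟨ha, h⟩)
  have hp : phi q e a = q a w := hw.phi C.lnk haU
  rw [hp] at hphi0
  have h1 : q a w ≠ e := fun h => ha ((hw.mem C.lnk haU).2 h)
  have hall : ∀ g ∈ Orb q e, ∃ v ∈ U q x, q v w = g := fun g hg =>
    C.sec3 hx he hw haU hphi0 h1 hg
  have horb : ∀ g, g ∈ Orb q e ↔ g ≠ 0 ∧ ∃ v ∈ U q x, q v w = g := by
    intro g
    constructor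
    · exact fun hg => ⟨C.orb_ne he hg, hall g hg⟩
    · rintro ⟨h0, v, hv, rfl⟩
      exact C.o1 he hw hv h0
  -- the representative of every `g ∈ O` is `w`
  have hmemU : ∀ v ∈ U q x, ∀ g ∈ Orb q e, (v ∈ S q g ↔ q v w = g) ∧
      ∃ w', Rp q x g w' ∧ q x (w + w') = 0 := by
    intro v hv g hg
    obtain ⟨v', hv', h2⟩ := hall g hg
    have hg0 := C.orb_ne he hg
    obtain ⟨w', hw'⟩ := C.rep hx (C.orb_max he hg).1 hg0
    have h3 : q x (w + w') = 0 := by
      apply C.o2 he hw hv' (by rw [h2]; exact hg0)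
      rw [h2]
      exact hw'
    refine ⟨?_, w', hw', h3⟩
    rw [hw'.mem C.lnk hv]
    have h4 : q v w = q v w' := eq_of_zero (hv _ h3)
    rw [h4]
  have hmem : ∀ v ∈ U q x, ∀ k ∈ K q e, ∀ g ∈ Orb q e, (v + k ∈ S q g ↔ q v w = g) := by
    intro v hv k hk g hg
    rw [← (hmemU v hv g hg).1]
    rw [← C.orb_K he hg] at hk
    exact (hk v).symm
  have hphi : ∀ v ∈ U q x, ∀ k ∈ K q e, ∀ g ∈ Orb q e, HDOM.phi q g (v + k) = q v w := by
    intro v hv k hk g hg
    have hgm := C.orb_max he hg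
    obtain ⟨h2, w', hw', h3⟩ := hmemU v hv g hg
    have h4 : q v w = q v w' := eq_of_zero (hv _ h3)
    by_cases h5 : v ∈ S q g
    · have h6 : v + k ∈ S q g := (hmem v hv k hk g hg).2 (h2.1 h5)
      rw [phi_of_mem C.lnk h6, h2.1 h5]
    · have h6 : v + k ∉ S q g := fun h => h5 (h2.2 ((hmem v hv k hk g hg).1 h))
      obtain ⟨-, -, k1⟩ := C.step hgm h5
      obtain ⟨-, -, k2⟩ := C.step hgm h6
      have hk' : k ∈ K q g := by rwa [C.orb_K he hg]
      have h7 : g + phi q g (v + k) = g + phi q g v := by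
        apply C.pkl _ (C.sym hgm.1 _)
        ext z
        rw [k1, k2, ← add_assoc]
        exact (hk' (z + v)).symm
      rw [add_left_cancel h7, hw'.phi C.lnk hv, h4]
  refine ⟨U q x, w, ⟨he, hmem, fun y hy g hg => ?_, horb, fun v hv h0 => ?_, hphi⟩, a, haU,
    hphi0, h1⟩
  · -- elements outside `U + K`
    by_contra hyg
    apply hy
    have hgm := C.orb_max he hg
    obtain ⟨v, hv, hvw⟩ := hall g hg
    have h2 : g + phi q g y ∈ Orb q e := by
      rw [← C.orb_orb he hg]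
      exact ⟨y, hyg, rfl⟩
    obtain ⟨v', hv', hvw'⟩ := hall _ h2
    have hne := C.orb_ne he h2
    obtain ⟨-, -, k1⟩ := C.step hgm hyg
    have h3 : v' + v ∉ S q g := by
      intro h
      have h4 := ((hmemU (v' + v) (add_mem hv' hv) g hg).1).1 h
      rw [qb, hvw, hvw'] at h4
      exact hne (add_eq_right.1 h4)
    obtain ⟨-, -, k2⟩ := C.step hgm h3
    have h4 : g + phi q g (v' + v) = g + phi q g y := by
      have h5 := hphi (v' + v) (add_mem hv' hv) 0 (zero_mem _) g hg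
      rw [add_zero] at h5
      rw [h5, qb, hvw, hvw', add_comm, dr]
    rw [h4] at k2
    have h6 : y + (v' + v) ∈ K q e := by
      rw [← C.orb_K he hg]
      intro z
      rw [← add_assoc, ← k2, k1, dr]
    have h7 : y = (v' + v) + (y + (v' + v)) := by
      rw [add_comm y, dl]
    rw [h7]
    exact Submodule.add_mem_sup (add_mem hv' hv) h6
  · exact (C.mem_K_iff he).2 ⟨fun h => by
      rw [hw.mem C.lnk hv, h0] at h
      exact he.2.1 h.symm, by rw [hw.phi C.lnk hv, h0]⟩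

end Pool.Agent.HDOM
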